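import Mathlib
import Pool.Agent.Helper93.AR.H4
import Pool.Agent.Helper44.RA.B

/-!
# All abc triples of bounded radical: count and asymptotic formula

The bound for `log c` by a power of the radical enters as the hypothesis `H`.
-/

set_option autoImplicit false

open Finset

namespace Helper39.RAll

/-- pairs of coprime positive integers with `rad (a b (a + b)) ≤ Z` -/
def TT (Z : ℕ) : Set (ℕ × ℕ) :=
  {t : ℕ × ℕ | 0 < t.1 ∧ 0 < t.2 ∧ t.1.Coprime t.2 ∧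
    (∏ p ∈ (t.1 * t.2 * (t.1 + t.2)).primeFactors, p) ≤ Z}

theorem log_le {K : ℝ} (hK : 0 < K) (H : ∀ a b : ℕ, 0 < a → 0 < b → a.Coprime b →
      Real.log ((a + b : ℕ) : ℝ) ≤
        K * ((∏ p ∈ (a * b * (a + b)).primeFactors, p : ℕ) : ℝ) ^ (1 : ℝ))
    {Z : ℕ} {t : ℕ × ℕ} (ht : t ∈ TT Z) : Real.log ((t.1 + t.2 : ℕ) : ℝ) ≤ K * Z := by
  obtain ⟨h1, h2, h3, h4⟩ := ht
  have h5 := H t.1 t.2 h1 h2 h3
  rw [Real.rpow_one] at h5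
  refine h5.trans (mul_le_mul_of_nonneg_left ?_ hK.le)
  exact_mod_cast h4

theorem finite {K : ℝ} (hK : 0 < K) (H : ∀ a b : ℕ, 0 < a → 0 < b → a.Coprime b →
      Real.log ((a + b : ℕ) : ℝ) ≤
        K * ((∏ p ∈ (a * b * (a + b)).primeFactors, p : ℕ) : ℝ) ^ (1 : ℝ))
    (Z : ℕ) : (TT Z).Finite := by
  set N : ℕ := ⌈Real.exp (K * Z)⌉₊ with hN
  refine Set.Finite.subset
    (((Finset.range (N + 1)) ×ˢ (Finset.range (N + 1)) : Finset (ℕ × ℕ)).finite_toSet) ?_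
  intro t ht
  have h5 := log_le hK H ht
  obtain ⟨h1, h2, _, _⟩ := ht
  have hpos : (0 : ℝ) < ((t.1 + t.2 : ℕ) : ℝ) := by
    have : 0 < t.1 + t.2 := by omega
    exact_mod_cast this
  have h6 : ((t.1 + t.2 : ℕ) : ℝ) ≤ Real.exp (K * Z) := (Real.log_le_iff_le_exp hpos).1 h5
  have h7 : t.1 + t.2 ≤ N := by
    have h8 : ((t.1 + t.2 : ℕ) : ℝ) ≤ (N : ℝ) := h6.trans (Nat.le_ceil _)
    exact_mod_cast h8
  simp only [Finset.coe_product, Finset.coe_range, Set.mem_prod, Set.mem_Iio]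
  omega

theorem upper {K : ℝ} (hK : 0 < K) (H : ∀ a b : ℕ, 0 < a → 0 < b → a.Coprime b →
      Real.log ((a + b : ℕ) : ℝ) ≤
        K * ((∏ p ∈ (a * b * (a + b)).primeFactors, p : ℕ) : ℝ) ^ (1 : ℝ))
    (ε : ℝ) (hε : 0 < ε) : ∃ C : ℝ, 0 < C ∧ ∀ Z : ℕ, 1 ≤ Z →
      (((TT Z).ncard : ℕ) : ℝ) ≤ C * (Z : ℝ) ^ (2 / 3 + ε) := by
  obtain ⟨C0, hC0, hB⟩ := Pool.RA.theoremB (ε / 2) (by positivity)
  refine ⟨C0 * (1 + Real.log (1 + K) + 2 / ε), ?_, fun Z hZ => ?_⟩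
  · have : 0 ≤ Real.log (1 + K) := Real.log_nonneg (by linarith)
    positivity
  have hZ1 : (1 : ℝ) ≤ (Z : ℝ) := by exact_mod_cast hZ
  have hZ0 : (0 : ℝ) < (Z : ℝ) := by linarith
  have hfin := finite hK H Z
  have hΛ : 1 ≤ (1 + K) * (Z : ℝ) := by nlinarith
  have h := hB Z ((1 + K) * Z) hZ hΛ hfin.toFinset (by
    intro t ht
    rw [Set.Finite.mem_toFinset] at ht
    refine ⟨ht, (log_le hK H ht).trans ?_⟩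
    nlinarith)
  rw [Set.ncard_eq_toFinset_card _ hfin]
  refine h.trans ?_
  have h1 : Real.log ((1 + K) * Z) = Real.log (1 + K) + Real.log Z :=
    Real.log_mul (by positivity) hZ0.ne'
  have h2 : Real.log (Z : ℝ) ≤ (Z : ℝ) ^ (ε / 2) / (ε / 2) := Real.log_le_rpow_div hZ0.le (by positivity)
  have h3 : 1 ≤ (Z : ℝ) ^ (ε / 2) := Real.one_le_rpow hZ1 (by positivity)
  have h4 : 0 ≤ Real.log (1 + K) := Real.log_nonneg (by linarith)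
  have h5 : 1 + Real.log ((1 + K) * Z) ≤ (1 + Real.log (1 + K) + 2 / ε) * (Z : ℝ) ^ (ε / 2) := by
    rw [h1]
    have e : (Z : ℝ) ^ (ε / 2) / (ε / 2) = 2 / ε * (Z : ℝ) ^ (ε / 2) := by field_simp
    rw [e] at h2
    nlinarith
  have h6 : (Z : ℝ) ^ (2 / 3 + ε) = (Z : ℝ) ^ (2 / 3 + ε / 2) * (Z : ℝ) ^ (ε / 2) := by
    rw [← Real.rpow_add hZ0]
    congr 1
    ring
  calc C0 * (Z : ℝ) ^ (2 / 3 + ε / 2) * (1 + Real.log ((1 + K) * Z))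
      ≤ C0 * (Z : ℝ) ^ (2 / 3 + ε / 2) *
        ((1 + Real.log (1 + K) + 2 / ε) * (Z : ℝ) ^ (ε / 2)) :=
        mul_le_mul_of_nonneg_left h5 (mul_nonneg (by linarith) (Real.rpow_nonneg hZ0.le _))
    _ = C0 * (1 + Real.log (1 + K) + 2 / ε) * (Z : ℝ) ^ (2 / 3 + ε) := by
        rw [h6]
        ring

/-- **All triples.** -/
theorem main {K : ℝ} (hK : 0 < K) (H : ∀ a b : ℕ, 0 < a → 0 < b → a.Coprime b →
      Real.log ((a + b : ℕ) : ℝ) ≤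
        K * ((∏ p ∈ (a * b * (a + b)).primeFactors, p : ℕ) : ℝ) ^ (1 : ℝ)) :
    ∃ P : ℝ, 0 < P ∧
    HasProd (fun p : Nat.Primes => (1 - 1 / ((p : ℕ) : ℝ)) * (1 - 2 / ((p : ℕ) : ℝ)) +
      3 * (1 - 1 / ((p : ℕ) : ℝ)) ^ 2 /
        (((p : ℕ) : ℝ) - ((p : ℕ) : ℝ) ^ (2 / 3 : ℝ))) P ∧
    ∀ ε : ℝ, 0 < ε → ∃ δ : ℝ, 0 < δ ∧ ∃ C : ℝ, ∀ Z : ℕ, 1 ≤ Z →
      (TT Z).Finite ∧
      (((TT Z).ncard : ℕ) : ℝ) ≤ C * (Z : ℝ) ^ (2 / 3 + ε) ∧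
      Real.Gamma (1 / 3) ^ 2 / (2 * Real.Gamma (2 / 3)) * P * (Z : ℝ) ^ (2 / 3 : ℝ) -
          C * (Z : ℝ) ^ (2 / 3 - δ) ≤ (((TT Z).ncard : ℕ) : ℝ) ∧
      ∀ x : ℝ, (Z : ℝ) ^ (1 / 3 + ε) ≤ x → x ≤ (Z : ℝ) ^ (1 / ε) →
        |(({t : ℕ × ℕ | 0 < t.1 ∧ 0 < t.2 ∧ t.1.Coprime t.2 ∧
            (∏ p ∈ (t.1 * t.2 * (t.1 + t.2)).primeFactors, p) ≤ Z ∧
            ((t.1 + t.2 : ℕ) : ℝ) ≤ x}.ncard : ℕ) : ℝ) -
          Real.Gamma (1 / 3) ^ 2 / (2 * Real.Gamma (2 / 3)) * P * (Z : ℝ) ^ (2 / 3 : ℝ)| ≤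
            C * (Z : ℝ) ^ (2 / 3 - δ) := by
  obtain ⟨P, hP, hprod, has⟩ := Pool.Agent.Helper93.AR.asym_const
  refine ⟨P, hP, hprod, fun ε hε => ?_⟩
  obtain ⟨C0, hC0, hup⟩ := upper hK H ε hε
  obtain ⟨δ1, C1, hδ1, hC1, h1⟩ := has (1 / 3 + ε) (by linarith)
  obtain ⟨δ2, C2, hδ2, hC2, h2⟩ := has (max 1 (1 / ε)) (lt_max_of_lt_left (by norm_num))
  refine ⟨min δ1 δ2, lt_min hδ1 hδ2, max C0 (max C1 C2), fun Z hZ => ?_⟩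
  have hZ1 : (1 : ℝ) ≤ (Z : ℝ) := by exact_mod_cast hZ
  have hZ0 : (0 : ℝ) < (Z : ℝ) := by linarith
  have hfin := finite hK H Z
  set N : ℝ → ℝ := fun x => (({t : ℕ × ℕ | 0 < t.1 ∧ 0 < t.2 ∧ t.1.Coprime t.2 ∧
      (∏ p ∈ (t.1 * t.2 * (t.1 + t.2)).primeFactors, p) ≤ Z ∧
      ((t.1 + t.2 : ℕ) : ℝ) ≤ x}.ncard : ℕ) : ℝ) with hN
  have hgg : ∀ x : ℝ, ((Pool.Agent.Helper93.AR.GG Z x).card : ℝ) = N x := by
    intro x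
    rw [hN]
    show ((Pool.Agent.Helper93.AR.GG Z x).card : ℝ) = (({t : ℕ × ℕ | 0 < t.1 ∧ 0 < t.2 ∧
      t.1.Coprime t.2 ∧ (∏ p ∈ (t.1 * t.2 * (t.1 + t.2)).primeFactors, p) ≤ Z ∧
      ((t.1 + t.2 : ℕ) : ℝ) ≤ x}.ncard : ℕ) : ℝ)
    rw [← Pool.Agent.Helper93.AR.gg_set, Set.ncard_coe_finset]
  have hsub : ∀ x : ℝ, {t : ℕ × ℕ | 0 < t.1 ∧ 0 < t.2 ∧ t.1.Coprime t.2 ∧
      (∏ p ∈ (t.1 * t.2 * (t.1 + t.2)).primeFactors, p) ≤ Z ∧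
      ((t.1 + t.2 : ℕ) : ℝ) ≤ x} ⊆ TT Z := fun x t ht => ⟨ht.1, ht.2.1, ht.2.2.1, ht.2.2.2.1⟩
  have hNT : ∀ x : ℝ, N x ≤ (((TT Z).ncard : ℕ) : ℝ) := by
    intro x
    have := Set.ncard_le_ncard (hsub x) hfin
    exact Nat.cast_le.2 this
  have hmono : ∀ x y : ℝ, x ≤ y → N x ≤ N y := by
    intro x y hxy
    have : ({t : ℕ × ℕ | 0 < t.1 ∧ 0 < t.2 ∧ t.1.Coprime t.2 ∧
        (∏ p ∈ (t.1 * t.2 * (t.1 + t.2)).primeFactors, p) ≤ Z ∧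
        ((t.1 + t.2 : ℕ) : ℝ) ≤ x}).ncard ≤ ({t : ℕ × ℕ | 0 < t.1 ∧ 0 < t.2 ∧ t.1.Coprime t.2 ∧
        (∏ p ∈ (t.1 * t.2 * (t.1 + t.2)).primeFactors, p) ≤ Z ∧
        ((t.1 + t.2 : ℕ) : ℝ) ≤ y}).ncard :=
      Set.ncard_le_ncard (fun t ht => ⟨ht.1, ht.2.1, ht.2.2.1, ht.2.2.2.1, ht.2.2.2.2.trans hxy⟩)
        (hfin.subset (hsub y))
    exact Nat.cast_le.2 this
  have hδm1 : C1 * (Z : ℝ) ^ (2 / 3 - δ1) ≤
      max C0 (max C1 C2) * (Z : ℝ) ^ (2 / 3 - min δ1 δ2) :=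
    mul_le_mul (le_max_of_le_right (le_max_left _ _))
      (Real.rpow_le_rpow_of_exponent_le hZ1 (by linarith [min_le_left δ1 δ2]))
      (Real.rpow_nonneg hZ0.le _) (le_max_of_le_right (le_max_of_le_left (by linarith)))
  have hδm2 : C2 * (Z : ℝ) ^ (2 / 3 - δ2) ≤
      max C0 (max C1 C2) * (Z : ℝ) ^ (2 / 3 - min δ1 δ2) :=
    mul_le_mul (le_max_of_le_right (le_max_right _ _))
      (Real.rpow_le_rpow_of_exponent_le hZ1 (by linarith [min_le_right δ1 δ2]))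
      (Real.rpow_nonneg hZ0.le _) (le_max_of_le_right (le_max_of_le_left (by linarith)))
  have hlow : Real.Gamma (1 / 3) ^ 2 / (2 * Real.Gamma (2 / 3)) * P * (Z : ℝ) ^ (2 / 3 : ℝ) -
      max C0 (max C1 C2) * (Z : ℝ) ^ (2 / 3 - min δ1 δ2) ≤ N ((Z : ℝ) ^ (1 / 3 + ε)) := by
    have h3 := (abs_le.1 (h1 Z hZ)).1
    rw [hgg] at h3
    linarith
  refine ⟨hfin, ?_, hlow.trans (hNT _), fun x hx1 hx2 => ?_⟩
  · exact (hup Z hZ).trans (mul_le_mul_of_nonneg_right (le_max_left _ _) (Real.rpow_nonneg hZ0.le _))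
  · have h3 := (abs_le.1 (h2 Z hZ)).2
    rw [hgg] at h3
    have h4 : N x ≤ N ((Z : ℝ) ^ max 1 (1 / ε)) := hmono _ _
      (hx2.trans (Real.rpow_le_rpow_of_exponent_le hZ1 (le_max_right _ _)))
    have h5 := hmono _ _ hx1
    change |N x - _| ≤ _
    rw [abs_le]
    constructor <;> linarith

end Helper39.RAll
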