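import Mathlib
import Pool.Agent.Helper39.RAll.Main
import Pool.Agent.Helper18.ZE.Asm

/-!
# All abc triples of bounded radical: the hypothesis `H` of `Main`
-/

set_option autoImplicit false

open Finset

namespace Helper39.RAll

theorem hyp : ∃ K : ℝ, 0 < K ∧ ∀ a b : ℕ, 0 < a → 0 < b → a.Coprime b →
    Real.log ((a + b : ℕ) : ℝ) ≤
      K * ((∏ p ∈ (a * b * (a + b)).primeFactors, p : ℕ) : ℝ) ^ (1 : ℝ) := by
  obtain ⟨D, hD⟩ := Pool.Agent.Helper18.ZE.main_uniform
  refine ⟨Real.exp (2 ^ D), Real.exp_pos _, fun a b ha hb hab => ?_⟩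
  rw [Real.rpow_one]
  set R : ℝ := ((∏ p ∈ (a * b * (a + b)).primeFactors, p : ℕ) : ℝ) with hR
  have hR1 : 1 ≤ R := by
    have : 0 < (∏ p ∈ (a * b * (a + b)).primeFactors, p : ℕ) :=
      Finset.prod_pos fun p hp => (Nat.prime_of_mem_primeFactors hp).pos
    rw [hR]
    exact_mod_cast this
  have hK1 : (1 : ℝ) ≤ Real.exp (2 ^ D) := Real.one_le_exp (by positivity)
  have hc : (1 : ℝ) < ((a + b : ℕ) : ℝ) := by exact_mod_cast (by omega : 1 < a + b)
  have hl : 0 < Real.log ((a + b : ℕ) : ℝ) := Real.log_pos hc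
  by_cases h : (2 : ℝ) ^ D ≤ Real.log (Real.log ((a + b : ℕ) : ℝ))
  · have h1 := hD 1 a b le_rfl ha hb hab (by
      have e : (((1 + 1 : ℕ) : ℝ)) ^ (D * 1) = (2 : ℝ) ^ D := by
        rw [mul_one]
        norm_num
      rw [e]
      exact h)
    rw [pow_one] at h1
    have h2 : Real.log ((a + b : ℕ) : ℝ) ≤ R := h1.le
    nlinarith
  · push Not at h
    have h1 : Real.log ((a + b : ℕ) : ℝ) ≤ Real.exp (2 ^ D) := by
      rw [← Real.log_le_iff_le_exp hl]
      exact h.le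
    nlinarith

end Helper39.RAll
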